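import Pool.Agent.LUB.Stmts

set_option autoImplicit false

/-!
# LUB: row OSB (helper86): norms and traces commute with derivations
-/

namespace Pool.Agent.LUB.H86

open Pool.Agent.LUB Matrix

theorem der_prod {R ι : Type} [CommRing R] [DecidableEq ι] (D : Derivation ℤ R R) (f : ι → R)
    (s : Finset ι) : D (∏ i ∈ s, f i) = ∑ j ∈ s, D (f j) * ∏ i ∈ s.erase j, f i := by
  induction s using Finset.induction_on with
  | empty => simp
  | insert a s ha ih =>
    rw [Finset.prod_insert ha, D.leibniz, ih, Finset.sum_insert ha, Finset.erase_insert ha,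
      smul_eq_mul, smul_eq_mul, add_comm, mul_comm (∏ i ∈ s, f i), Finset.mul_sum]
    congr 1
    refine Finset.sum_congr rfl fun j hj => ?_
    have hja : j ≠ a := fun h => ha (h ▸ hj)
    rw [Finset.erase_insert_of_ne hja.symm,
      Finset.prod_insert (fun h => ha (Finset.mem_of_mem_erase h))]
    ring

theorem det_upd {R : Type} [CommRing R] {n : ℕ} (M : Matrix (Fin n) (Fin n) R) (j : Fin n)
    (v : Fin n → R) : (M.updateCol j v).det =
      ∑ σ : Equiv.Perm (Fin n), Equiv.Perm.sign σ •
        (v (σ j) * ∏ i ∈ Finset.univ.erase j, M (σ i) i) := by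
  rw [Matrix.det_apply]
  refine Finset.sum_congr rfl fun σ _ => ?_
  congr 1
  rw [← Finset.mul_prod_erase Finset.univ _ (Finset.mem_univ j), updateCol_self]
  congr 1
  refine Finset.prod_congr rfl fun i hi => ?_
  rw [updateCol_ne (Finset.ne_of_mem_erase hi)]

theorem der_det {R : Type} [CommRing R] {n : ℕ} (D : Derivation ℤ R R)
    (M : Matrix (Fin n) (Fin n) R) : D M.det = (M.adjugate * M.map D).trace := by
  have h1 : D M.det = ∑ σ : Equiv.Perm (Fin n), Equiv.Perm.sign σ •
      ∑ j, D (M (σ j) j) * ∏ i ∈ Finset.univ.erase j, M (σ i) i := by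
    rw [Matrix.det_apply, map_sum]
    refine Finset.sum_congr rfl fun σ _ => ?_
    rw [Units.smul_def, Units.smul_def, D.map_smul, der_prod D (fun i => M (σ i) i)]
  have h2 : ∀ j : Fin n, (M.adjugate * M.map D) j j =
      (M.updateCol j (fun i => D (M i j))).det := by
    intro j
    rw [← cramer_apply, cramer_eq_adjugate_mulVec]
    rfl
  rw [h1, Matrix.trace]
  simp only [diag_apply, h2, det_upd]
  rw [Finset.sum_comm]
  refine Finset.sum_congr rfl fun σ _ => ?_
  rw [Finset.smul_sum]

theorem osb : OsbStmt := by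
  intro K₀ E _ _ _ _ _ D₀ D hD
  classical
  let b : Module.Basis (Fin (Module.finrank K₀ E)) K₀ E := Module.finBasis K₀ E
  let M : E →ₐ[K₀] Matrix (Fin (Module.finrank K₀ E)) (Fin (Module.finrank K₀ E)) K₀ :=
    Algebra.leftMulMatrix b
  let N : Matrix (Fin (Module.finrank K₀ E)) (Fin (Module.finrank K₀ E)) K₀ :=
    fun k j => b.repr (D (b j)) k
  have hDs : ∀ (c : K₀) (y : E), D (c • y) = D₀ c • y + c • D y := by
    intro c y
    rw [Algebra.smul_def, D.leibniz, hD, smul_eq_mul, smul_eq_mul,
      Algebra.smul_def (D₀ c) y, Algebra.smul_def c (D y)]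
    ring
  have hmul : ∀ (x : E) (j : Fin (Module.finrank K₀ E)), x * b j = ∑ i, M x i j • b i := by
    intro x j
    conv_lhs => rw [← b.sum_repr (x * b j)]
    refine Finset.sum_congr rfl fun i _ => ?_
    rw [Algebra.leftMulMatrix_eq_repr_mul]
  have hN : ∀ j : Fin (Module.finrank K₀ E), D (b j) = ∑ k, N k j • b k := by
    intro j
    exact (b.sum_repr (D (b j))).symm
  have hkey : ∀ x : E, M (D x) = (M x).map D₀ + N * M x - M x * N := by
    intro x
    ext k j
    have e1 : D (x * b j) = D x * b j + x * D (b j) := by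
      rw [D.leibniz, smul_eq_mul, smul_eq_mul]
      ring
    have e2 : D (x * b j) = ∑ i, D₀ (M x i j) • b i + ∑ i, M x i j • ∑ k, N k i • b k := by
      rw [hmul x j, map_sum, ← Finset.sum_add_distrib]
      refine Finset.sum_congr rfl fun i _ => ?_
      rw [hDs, ← hN]
    have e3 : x * D (b j) = ∑ l, N l j • ∑ k, M x k l • b k := by
      rw [hN j, Finset.mul_sum]
      refine Finset.sum_congr rfl fun l _ => ?_
      rw [mul_smul_comm, hmul]
    have e4 : D x * b j = ∑ i, D₀ (M x i j) • b i + ∑ i, M x i j • ∑ k, N k i • b k -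
        ∑ l, N l j • ∑ k, M x k l • b k := by
      rw [← e2, ← e3, e1]
      ring
    have e5 := congrArg (fun y => b.repr y k) e4
    simp only [map_add, map_sub, map_sum, map_smul, Finsupp.coe_add, Finsupp.coe_sub,
      Pi.add_apply, Pi.sub_apply, Finsupp.coe_finsetSum, Finset.sum_apply, Finsupp.coe_smul,
      Pi.smul_apply, b.repr_self, Finsupp.single_apply, smul_eq_mul, mul_ite, mul_one, mul_zero,
      Finset.sum_ite_eq', Finset.mem_univ, if_true] at e5
    rw [Algebra.leftMulMatrix_eq_repr_mul, e5, Matrix.sub_apply, Matrix.add_apply,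
      Matrix.map_apply, Matrix.mul_apply, Matrix.mul_apply]
    congr 1
    · congr 1
      exact Finset.sum_congr rfl fun i _ => mul_comm _ _
    · exact Finset.sum_congr rfl fun i _ => mul_comm _ _
  constructor
  · intro x
    rw [Algebra.trace_eq_matrix_trace b, Algebra.trace_eq_matrix_trace b]
    change D₀ (M x).trace = (M (D x)).trace
    rw [hkey, Matrix.trace_sub, Matrix.trace_add, Matrix.trace_mul_comm N, add_sub_cancel_right]
    rw [Matrix.trace, Matrix.trace, map_sum]
    rfl
  · intro x hx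
    have hxx : M x⁻¹ * M x = 1 := by
      rw [← map_mul, inv_mul_cancel₀ hx, map_one]
    have hn : Algebra.norm K₀ x = (M x).det := Algebra.norm_eq_matrix_det b x
    have hn0 : (M x).det ≠ 0 := by
      rw [← hn]
      exact Algebra.norm_ne_zero_iff.2 hx
    have hadj : (M x).adjugate = (M x).det • M x⁻¹ := by
      calc (M x).adjugate = M x⁻¹ * M x * (M x).adjugate := by rw [hxx, one_mul]
        _ = M x⁻¹ * ((M x).det • 1) := by rw [mul_assoc, Matrix.mul_adjugate]
        _ = (M x).det • M x⁻¹ := by rw [mul_smul_comm, mul_one]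
    have h1 : D₀ (Algebra.norm K₀ x) / Algebra.norm K₀ x = (M x⁻¹ * (M x).map D₀).trace := by
      rw [hn, der_det, hadj, smul_mul_assoc, Matrix.trace_smul, smul_eq_mul,
        mul_div_cancel_left₀ _ hn0]
    have h2 : Algebra.trace K₀ E (D x / x) = (M x⁻¹ * M (D x)).trace := by
      rw [Algebra.trace_eq_matrix_trace b, div_eq_inv_mul]
      change (M (x⁻¹ * D x)).trace = _
      rw [map_mul]
    rw [h1, h2, hkey, Matrix.mul_sub, Matrix.mul_add, Matrix.trace_sub, Matrix.trace_add,
      ← mul_assoc (M x⁻¹) (M x) N, hxx, one_mul, ← mul_assoc (M x⁻¹) N (M x),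
      Matrix.trace_mul_comm (M x⁻¹ * N) (M x), ← mul_assoc, mul_eq_one_comm.1 hxx, one_mul,
      add_sub_cancel_right]

end Pool.Agent.LUB.H86
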