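import Pool.Agent.LUB.Stmts

set_option autoImplicit false

/-!
# LUB: row LIN (helper86): linear families
-/

namespace Pool.Agent.LUB.H86

open Polynomial NumberField
open Pool.Agent.LUB
open Pool.Agent.Helper85_Leo (LeopoldtAt)

theorem sp_mapC (P : ℤ[X]) (t : ℤ) : sp (P.map C) t = P := by
  rw [sp, map_map]
  have h : (evalRingHom t).comp (C : ℤ →+* ℤ[X]) = RingHom.id ℤ := RingHom.ext_int _ _
  rw [h, map_id]

theorem sp_lin (P Q : ℤ[X]) (t : ℤ) :
    sp (P.map C - C X * Q.map C : ℤ[X][X]) t = P - C t * Q := by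
  have h1 := sp_mapC P t
  have h2 := sp_mapC Q t
  rw [sp] at h1 h2
  rw [sp, Polynomial.map_sub, Polynomial.map_mul, h1, h2, map_C, coe_evalRingHom, eval_X]

theorem count_le {Q : ℤ[X]} {r : ℕ} {g : Fin r → ℤ[X]} (hQ : Q ≠ 0)
    (hg : ∀ i, 0 < (g i).natDegree) (hd : ∀ i, g i ∣ Q)
    (hc : ∀ i l, i ≠ l →
      IsCoprime ((g i).map (Int.castRingHom ℚ)) ((g l).map (Int.castRingHom ℚ))) :
    r ≤ Q.natDegree := by
  have hinj : Function.Injective (Int.castRingHom ℚ) := Int.cast_injective
  have h1 : (∏ i, (g i).map (Int.castRingHom ℚ)) ∣ Q.map (Int.castRingHom ℚ) := by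
    apply Finset.prod_dvd_of_coprime
    · intro i _ l _ hil
      exact hc i l hil
    · intro i _
      exact Polynomial.map_dvd _ (hd i)
  have hQ' : Q.map (Int.castRingHom ℚ) ≠ 0 := (Polynomial.map_ne_zero_iff hinj).2 hQ
  have h2 := natDegree_le_of_dvd h1 hQ'
  have hne : ∀ i, (g i).map (Int.castRingHom ℚ) ≠ 0 := by
    intro i h
    have h' := (Polynomial.map_eq_zero_iff hinj).1 h
    have := hg i
    rw [h', natDegree_zero] at this
    exact lt_irrefl _ this
  rw [natDegree_prod _ _ fun i _ => hne i, natDegree_map_eq_of_injective hinj] at h2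
  refine le_trans ?_ h2
  calc r = ∑ _i : Fin r, 1 := by simp
    _ ≤ _ := Finset.sum_le_sum fun i _ => by
        rw [natDegree_map_eq_of_injective hinj]
        exact hg i

theorem lin : LinStmt := by
  intro hF hM p _ n
  choose B hB using fun r => hM p n r n
  refine ⟨∑ r ∈ Finset.range (n + 1), B r, ?_⟩
  intro P Q r g hP hn hQ hQn hg hd hc hcc
  have hr : r ≤ n := (count_le hQ hg hd hcc).trans hQn.le
  have h1 : 1 ≤ n := by omega
  have hCinj : Function.Injective (C : ℤ →+* ℤ[X]) := C_injective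
  have hPm : (P.map C : ℤ[X][X]).Monic := hP.map C
  have hPd : (P.map C : ℤ[X][X]).natDegree = n := by
    rw [natDegree_map_eq_of_injective hCinj, hn]
  have hQd : (C X * Q.map C : ℤ[X][X]).natDegree ≤ Q.natDegree := by
    refine (natDegree_C_mul_le _ _).trans ?_
    rw [natDegree_map_eq_of_injective hCinj]
  have hlt : (C X * Q.map C : ℤ[X][X]).natDegree < (P.map C : ℤ[X][X]).natDegree := by
    rw [hPd]
    omega
  have hdeg : (P.map C - C X * Q.map C : ℤ[X][X]).natDegree = n := by
    rw [natDegree_sub_eq_left_of_natDegree_lt hlt, hPd]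
  have hmon : (P.map C - C X * Q.map C : ℤ[X][X]).Monic := by
    apply hPm.sub_of_left
    exact degree_lt_degree hlt
  have hmain := hB r (P.map C - C X * Q.map C) (fun i => (g i).map C) hmon hdeg
    (by
      intro j
      rw [coeff_sub, coeff_C_mul, coeff_map, coeff_map]
      refine (natDegree_sub_le _ _).trans (max_le ?_ ?_)
      · rw [natDegree_C]
        exact Nat.zero_le _
      · refine natDegree_mul_le.trans ?_
        rw [natDegree_X, natDegree_C]
        exact h1)
    (by
      intro i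
      constructor
      · rw [natDegree_map_eq_of_injective hCinj]
        exact (natDegree_le_of_dvd (hd i) hQ).trans hQn.le
      · intro j
        rw [coeff_map, natDegree_C]
        exact Nat.zero_le _)
    (hF P Q r g hP hQ (by rw [hn]; exact hQn) hg hd
      (fun i => (hc i).map (mapRingHom (Int.castRingHom ℚ))) hcc)
  have hle : ((B r : ℕ) : ℕ∞) ≤ ((∑ r ∈ Finset.range (n + 1), B r : ℕ) : ℕ∞) := by
    apply Nat.cast_le.2
    exact Finset.single_le_sum (fun i _ => Nat.zero_le (B i))
      (Finset.mem_range.2 (Nat.lt_succ_of_le hr))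
  refine le_trans ?_ (hmain.trans hle)
  apply Set.encard_le_encard
  rintro t ⟨K, hK1, hK2, θ, hθ, hgen, hfin, hrank, hL⟩
  have hmt : (P - C t * Q : ℤ[X]).Monic := by
    apply hP.sub_of_left
    apply degree_lt_degree
    exact lt_of_le_of_lt (natDegree_C_mul_le _ _) (by rw [hn]; exact hQn)
  have hint : IsIntegral ℤ θ := ⟨P - C t * Q, hmt, hθ⟩
  let θ' : 𝓞 K := ⟨θ, hint⟩
  have hθ' : aeval θ' (P - C t * Q : ℤ[X]) = 0 := by
    have hinj : Function.Injective (algebraMap (𝓞 K) K) := RingOfIntegers.coe_injective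
    apply hinj
    rw [map_zero, ← aeval_algebraMap_apply]
    exact hθ
  refine ⟨K, hK1, hK2, θ', ?_, hgen, ?_, ?_, hrank, hL⟩
  · rw [sp_lin]
    exact hθ'
  · rw [hdeg]
    exact hfin
  · intro i
    rw [sp_mapC]
    obtain ⟨a, b, hab⟩ := hc i
    obtain ⟨q, hq⟩ := hd i
    have e1 : aeval θ' P = (t : 𝓞 K) * aeval θ' Q := by
      have h := hθ'
      rw [map_sub, map_mul, aeval_C, sub_eq_zero] at h
      rw [h]
      simp
    have e2 : aeval θ' Q = aeval θ' (g i) * aeval θ' q := by
      rw [hq, map_mul]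
    have e3 : aeval θ' a * aeval θ' P + aeval θ' b * aeval θ' (g i) = 1 := by
      rw [← map_mul, ← map_mul, ← map_add, hab, map_one]
    refine IsUnit.of_mul_eq_one ((t : 𝓞 K) * aeval θ' q * aeval θ' a + aeval θ' b) ?_
    rw [← e3, e1, e2]
    ring

end Pool.Agent.LUB.H86
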